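import Pool.Agent.Ins30.K223

set_option autoImplicit false

/-! # A harmonious graph that is not sequential

The complete tripartite graph `K_{2,2,3}` (7 vertices, 16 edges) is harmonious but not sequential. -/

namespace Pool.Agent.Results.MP_4150d6_co.TripartiteK223

open Pool.Agent.Ins30

variable {V : Type*}

/-- The number `q` of edges of the graph `G`. -/
noncomputable abbrev numEdges (G : SimpleGraph V) : ℕ := Nat.card G.edgeSet

/-- The value `f u + f v` of the (unordered) pair `uv`. -/
def pairSum {A : Type*} [AddCommMonoid A] (f : V → A) : Sym2 V → A :=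
  Sym2.lift ⟨fun u v => f u + f v, fun u v => add_comm (f u) (f v)⟩

/-- `f : V → ℤ/q` is a harmonious labeling of the graph `G` with `q` edges: the edge values
`f u + f v` modulo `q` are pairwise distinct, and `f` is injective if `G` is not a tree, while
exactly two vertices share a label if `G` is a tree. -/
structure IsHarmoniousLabeling (G : SimpleGraph V) (f : V → ZMod (numEdges G)) : Prop where
  edges : Set.InjOn (pairSum f) G.edgeSet
  notTree : ¬ G.IsTree → Function.Injective f
  tree : G.IsTree → ∃ u v, u ≠ v ∧ f u = f v ∧ ∀ x y, x ≠ y → f x = f y → s(x, y) = s(u, v)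

/-- `G` is harmonious. -/
def IsHarmonious (G : SimpleGraph V) : Prop :=
  ∃ f : V → ZMod (numEdges G), IsHarmoniousLabeling G f

/-- `f : V → ℕ` is a sequential labeling of the graph `G` with `q` edges: `f` is injective with
values in `[0, q-1]` (or `[0, q]` if `G` is a tree), and the edge labels `f u + f v` form exactly
the set `[m, m+q-1]` for some positive integer `m`. -/
structure IsSequentialLabeling (G : SimpleGraph V) (f : V → ℕ) : Prop where
  inj : Function.Injective f
  range : (∀ v, f v < numEdges G) ∨ (G.IsTree ∧ ∀ v, f v ≤ numEdges G)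
  sums : ∃ m : ℕ, 0 < m ∧ pairSum f '' G.edgeSet = Set.Icc m (m + numEdges G - 1)

/-- `G` is sequential. -/
def IsSequential (G : SimpleGraph V) : Prop := ∃ f : V → ℕ, IsSequentialLabeling G f

/-- The complete tripartite graph `K_{2,2,3}`. -/
abbrev K : SimpleGraph (Σ i : Fin 3, Fin (![2, 2, 3] i)) :=
  SimpleGraph.completeMultipartiteGraph fun i : Fin 3 => Fin (![2, 2, 3] i)

/-- numbering of the vertices -/
def e : Fin 7 → (Σ i : Fin 3, Fin (![2, 2, 3] i)) :=
  ![⟨0, (0 : Fin 2)⟩, ⟨0, (1 : Fin 2)⟩, ⟨1, (0 : Fin 2)⟩, ⟨1, (1 : Fin 2)⟩,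
    ⟨2, (0 : Fin 3)⟩, ⟨2, (1 : Fin 3)⟩, ⟨2, (2 : Fin 3)⟩]

theorem e_bij : Function.Bijective e := by
  rw [Fintype.bijective_iff_injective_and_card]
  constructor
  · intro a b; revert a b; decide
  · simp [Fin.sum_univ_three]

theorem e_adj : ∀ a b : Fin 7, K.Adj (e a) (e b) ↔ K223.part a ≠ K223.part b := by
  intro a b
  have h : ∀ a : Fin 7, (e a).1 = K223.part a := by decide
  simp [K, h]

/-- the isomorphism with the graph on `Fin 7` -/
noncomputable def iso : K223.K223 ≃g K where
  toEquiv := Equiv.ofBijective e e_bij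
  map_rel_iff' := by
    intro a b
    exact e_adj a b

theorem num : numEdges K = 16 := by
  have h := Nat.card_congr iso.mapEdgeSet
  have h2 : numEdges K = Nat.card K223.K223.edgeSet := h.symm
  rw [h2, K223.card_edges]

theorem not_tree : ¬ K.IsTree := fun h => K223.not_tree (iso.isTree_iff.mpr h)

theorem pairSum_mk {A : Type*} [AddCommMonoid A] (f : V → A) (x y : V) :
    pairSum f s(x, y) = f x + f y := rfl

theorem harm_aux (q : ℕ) (hq : q = 16) :
    ∃ f : (Σ i : Fin 3, Fin (![2, 2, 3] i)) → ZMod q,
      Set.InjOn (pairSum f) K.edgeSet ∧ Function.Injective f := by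
  subst hq
  let E := Equiv.ofBijective e e_bij
  have hE : ∀ x, e (E.symm x) = x := fun x => E.apply_symm_apply x
  refine ⟨fun x => K223.lab (E.symm x), ?_, fun x y h => E.symm.injective (K223.lab_inj h)⟩
  intro p hp r hr h
  induction p using Sym2.ind with
  | _ x y =>
    induction r using Sym2.ind with
    | _ z w =>
      rw [SimpleGraph.mem_edgeSet] at hp hr
      rw [pairSum_mk, pairSum_mk] at h
      rw [← hE x, ← hE y, e_adj] at hp
      rw [← hE z, ← hE w, e_adj] at hr
      have h1 := K223.lab_sum _ _ _ _ hp hr h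
      have h2 := congrArg (Sym2.map e) h1
      rw [Sym2.map_mk, Sym2.map_mk, hE, hE, hE, hE] at h2
      exact h2

/-- There is a harmonious graph that is not sequential: the complete tripartite graph `K_{2,2,3}`
(it has 7 vertices and 16 edges and is not a tree). -/
theorem result :
    IsHarmonious (SimpleGraph.completeMultipartiteGraph fun i : Fin 3 => Fin (![2, 2, 3] i)) ∧
    ¬ IsSequential (SimpleGraph.completeMultipartiteGraph fun i : Fin 3 => Fin (![2, 2, 3] i)) := by
  constructor
  · obtain ⟨f, h1, h2⟩ := harm_aux (numEdges K) num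
    exact ⟨f, h1, fun _ => h2, fun h => absurd h not_tree⟩
  · rintro ⟨f, hinj, hrange, m, hm, hsum⟩
    have hlt : ∀ v, f v < 16 := by
      rcases hrange with h | h
      · intro v; have := h v; rw [num] at this; exact this
      · exact absurd h.1 not_tree
    rw [num] at hsum
    have hfin : K.edgeSet.Finite := Set.toFinite _
    have hcard : (pairSum f '' K.edgeSet).ncard = K.edgeSet.ncard := by
      have h1 : K.edgeSet.ncard = 16 := num
      rw [h1, hsum, ← Finset.coe_Icc, Set.ncard_coe_finset, Nat.card_Icc]
      omega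
    have hInj : Set.InjOn (pairSum f) K.edgeSet := Set.injOn_of_ncard_image_eq hcard hfin
    refine K223.no_V (g := fun a => f (e a)) (m := m) ⟨?_, fun v => hlt _, ?_, ?_⟩
    · exact hinj.comp e_bij.1
    · intro a b hab
      have h1 : K.Adj (e a) (e b) := (e_adj a b).2 hab
      have h2 : pairSum f s(e a, e b) ∈ Set.Icc m (m + 16 - 1) := by
        rw [← hsum]; exact ⟨_, h1, rfl⟩
      rw [pairSum_mk, Set.mem_Icc] at h2
      constructor
      · exact h2.1
      · have := h2.2
        show f (e a) + f (e b) < m + 16
        omega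
    · intro a b c d hab hcd h
      have h1 : K.Adj (e a) (e b) := (e_adj a b).2 hab
      have h2 : K.Adj (e c) (e d) := (e_adj c d).2 hcd
      have h3 : s(e a, e b) = s(e c, e d) := hInj h1 h2 h
      have h4 : Sym2.map e s(a, b) = Sym2.map e s(c, d) := by
        rw [Sym2.map_mk, Sym2.map_mk]; exact h3
      exact Sym2.map.injective e_bij.1 h4

end Pool.Agent.Results.MP_4150d6_co.TripartiteK223
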